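import Pool.Agent.H367.OS.OOri
import Mathlib

/-!
# The Eichler-Shimura conjecture and single pieces of one sequence of cubics

A relation `r` of size `m` is one of the equations `x_i x_j = x_l`, `x_i + x_j = x_l`, `x_i = 1` with
`i, j, l < m`; the relations are numbered, the number of `r` is `ν(r)` (`relNum`). Let `G_m` be the
following polynomial with integral coefficients (`univG ℤ m`). There are variables `x_i` and `z_ij` for
`i, j < m`, a variable `c_r` for every relation `r`, and variables `y_{r,l}` for all relations `r` and
`l < (m + 1) 2 ^ ν(r)`. The equations (`eqnG`) are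

  `z_ij - x_i x_j`,  `c_r ^ 2 - c_r`,  `c_r ρ_r`,  `(1 - c_r) y_{r,l}`,

where `ρ_r` is the linear polynomial `z_ij - x_l`, `x_i + x_j - x_l` or `x_i - 1` of the relation.
`G_m` is the sum of the equations multiplied by further variables `t_e`, one for each equation. It has
degree three. Let `C_m` be the affine cubic hypersurface `G_m = 1` (`cubG R m` over the ring `R`); it is
smooth over the integers.

Let `F` be a totally real number field. Let `M` be the category of motives over `F` (motivated
cycles), a semisimple abelian category with Tate twists `N ↦ N(a)`. For a separated scheme `X` of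
finite type over `ℚ` let `D.G w j X = Gr^W_w H^j_c(X_F)` be the part of weight `w` of the cohomology
with compact supports, a motive over `F`; for smooth projective `Y` it is `h^j(Y_F)` if `j = w`, and
zero otherwise. For an abelian variety `B : Ab` over `F` let `h1 B` be the motive `h^1(B)`. Every
abelian variety `B` over `F` is a union of connected components of `Y_F`, where `Y` is `B` as a smooth
projective scheme over `ℚ`; and for every smooth projective scheme `Y` over `ℚ` the direct factors of
`h^1(Y_F)` are the motives `h^1(B)` of abelian varieties `B` over `F` (the quotients of the Albanese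
variety of `Y_F`); see `AbelianVarieties`.

`V.dim B`, `V.End B`, `V.bad B` and `V.L B` are the dimension, the ring of the endomorphisms over `F`,
the set of the primes of bad reduction, and the Hasse-Weil `L`-function of `B`. Let `W.Form` be the
Hilbert newforms over `F` of parallel weight two and trivial character, `W.field f` the field `K_f`,
`W.order f` the ring `𝒪_f`, `W.level f` the set of the primes which divide the level, and `W.L f τ`
the `L`-function of `f^τ`. `EichlerShimura V W f B` consists of the four conditions of the problem
file: `dim B = [K_f : ℚ]`, good reduction at all primes not dividing the level, an injective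
homomorphism `𝒪_f → End_F(B)`, and `L(B, s) = ∏ L(f^τ, s)`. So question Q1 for `f` is `∃ B,
EichlerShimura V W f B`.

**Theorem.** Let `E_m` be the number of the equations, and for `N ∈ ℕ` let `e = (m + 1) N + E_m - 1`
(`esh m N`).

(1) For all `m ≥ 1` and `N` the motive `Gr^W_{2e+1} H^{2e+2}_c((C_m)_F)(e)` is `h^1(B)` for an abelian
variety `B = B_{m,N}` over `F`, and for every abelian variety `B` over `F` and all large `m` there is
an `N` such that `h^1(B)` is a direct factor of `h^1(B_{m,N})`: `B` is a factor of `B_{m,N}` up to
isogeny.

(2) Every newform `f` has an associated abelian variety if and only if for every `f` and all large `m`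
there is, for some `N`, an associated abelian variety `A_f` which is a factor of `B_{m,N}` up to
isogeny: `h^1(A_f)` is a direct factor of the single motive
`Gr^W_{2e+1} H^{2e+2}_c((C_m)_F)(e)`. The same is true for every single newform `f`.

(3) `G_m` has integral coefficients and degree at most three, and `C_m` is smooth over all rings.

The hypotheses on the motives are standard (`IsMot`): exact sequences, affine bundles, disjoint unions,
the cohomology of affine spaces, the weights of `H^j_c(X)` are between `0` and `2 dim X`, monomorphisms
split, `Gr^W_w H^j_c(X)` is a direct factor of `h^w(Y)` for some smooth projective `Y` (it is a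
subquotient, by the weight spectral sequence), and every smooth projective scheme has an affine bundle
whose total space is affine (Jouanolou).

Idea of the proof. The projection of `C_m` to the affine space with the coordinates `x, z, c, y` is an
affine bundle over the complement of the zero set `W_m` of the equations. The scheme `W_m` is the
disjoint union, over all sets `s` of relations (`c_r = 1` for `r ∈ s` and `c_r = 0` for the others), of
the products `X_s × 𝔸 ^ ((m + 1) N(s))`, where `X_s` is the affine scheme defined by the relations in
`s` and `N(s) = ∑_{r ∈ s} 2 ^ ν(r)`. The numbers `N(s)` are different, and the weights of the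
cohomology of `X_s` are between `0` and `2 m`. So the part of weight `w + 2 (m + 1) N(s)`,
`0 ≤ w ≤ 2 m + 1`, of the cohomology of `W_m` is the twist of the part of weight `w` of the cohomology of
`X_s`, and it is different from the weight of the cohomology of the affine space. Every affine scheme of
finite type over a prime field is an `X_s`, for all large `m`. The pieces of the cohomology of an
arbitrary scheme are direct factors of those of a disjoint union of affine schemes.

The universal system of relations is the one of helper854 (`Pool.Agent.H854.SQ`).
-/

set_option autoImplicit false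

open CategoryTheory CategoryTheory.Limits AlgebraicGeometry Pool.Agent.Y116.UV Pool.Agent.Z125.UN
  Pool.Agent.Q193.LT Pool.Agent.H854.SQ Pool.Agent.H367.OS

universe w v u



namespace Pool.Agent.Results.MP_e1ffa3_nt.PiecesOfOneSequence

/-- The dimensions, the endomorphism rings, the primes of bad reduction and the `L`-functions of the
abelian varieties over `F`; `Pr` is the set of the primes of `F`. -/
structure Varieties (Ab : Type w) (Pr : Type) where
  /-- the dimension -/
  dim : Ab → ℕ
  /-- the ring of endomorphisms over `F` -/
  End : Ab → Type
  /-- it is a ring -/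
  ring : ∀ B, Ring (End B)
  /-- the primes of bad reduction -/
  bad : Ab → Set Pr
  /-- the Hasse-Weil `L`-function -/
  L : Ab → ℂ → ℂ

attribute [instance] Varieties.ring

/-- Newforms `f`, the fields `K_f`, the rings `𝒪_f`, the primes which divide the level, and the
`L`-functions of the conjugate newforms `f^τ`. -/
structure Newforms (Pr : Type) where
  /-- the newforms -/
  Form : Type
  /-- the field `K_f` -/
  field : Form → Type
  /-- it is a field -/
  isField : ∀ f, Field (field f)
  /-- it is a number field -/
  isNumberField : ∀ f, NumberField (field f)
  /-- the ring `𝒪_f` -/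
  order : ∀ f, Subring (field f)
  /-- the primes which divide the level -/
  level : Form → Set Pr
  /-- the `L`-function of the conjugate `f^τ` -/
  L : ∀ f, (field f →+* ℂ) → ℂ → ℂ

attribute [instance] Newforms.isField Newforms.isNumberField

/-- The abelian variety `B` is associated to the newform `f`: the conditions (i)-(iv). -/
structure EichlerShimura {Ab : Type w} {Pr : Type} (V : Varieties Ab Pr) (W : Newforms Pr)
    (f : W.Form) (B : Ab) : Prop where
  dim : V.dim B = Module.finrank ℚ (W.field f)
  good : V.bad B ⊆ W.level f
  order : ∃ φ : W.order f →+* V.End B, Function.Injective φ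
  L : ∀ s : ℂ, V.L B s = ∏ τ : W.field f →+* ℂ, W.L f τ s

/-- **The Eichler-Shimura conjecture and single pieces of one sequence of cubic hypersurfaces over the
integers.** See the explanations above. -/
theorem result {F : Type} [Field F] [NumberField F] [NumberField.IsTotallyReal F] {M : Type u}
    [Category.{v} M] [Abelian M] {D : Pieces ℚ M} (h : IsMot D) {Ab : Type w} {h1 : Ab → M}
    (ha : AbelianVarieties D h1)
    (V : Varieties Ab (IsDedekindDomain.HeightOneSpectrum (NumberField.RingOfIntegers F)))
    (W : Newforms (IsDedekindDomain.HeightOneSpectrum (NumberField.RingOfIntegers F))) :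
    (∀ m, 1 ≤ m → ∀ N : ℕ, ∃ B : Ab, Nonempty (h1 B ≅ (D.tw (esh m N)).obj
      (D.G (1 + 2 * esh m N) (1 + 2 * esh m N + 1) (cubG ℚ m)))) ∧
    (∀ B : Ab, ∀ᶠ m in Filter.atTop, ∃ N : ℕ, Factor (h1 B) ((D.tw (esh m N)).obj
      (D.G (1 + 2 * esh m N) (1 + 2 * esh m N + 1) (cubG ℚ m)))) ∧
    (∀ f : W.Form, (∃ B : Ab, EichlerShimura V W f B) ↔
      ∀ᶠ m in Filter.atTop, ∃ (N : ℕ) (B : Ab), Factor (h1 B) ((D.tw (esh m N)).obj
        (D.G (1 + 2 * esh m N) (1 + 2 * esh m N + 1) (cubG ℚ m))) ∧ EichlerShimura V W f B) ∧
    ((∀ f : W.Form, ∃ B : Ab, EichlerShimura V W f B) ↔
      ∀ f : W.Form, ∀ᶠ m in Filter.atTop, ∃ (N : ℕ) (B : Ab), Factor (h1 B) ((D.tw (esh m N)).obj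
        (D.G (1 + 2 * esh m N) (1 + 2 * esh m N + 1) (cubG ℚ m))) ∧ EichlerShimura V W f B) ∧
    ∀ m : ℕ, (univG ℤ m).totalDegree ≤ 3 ∧
      ∀ (R : Type) [CommRing R], MvPolynomial.map (Int.castRingHom R) (univG ℤ m) = univG R m ∧
        Smooth (cubG R m).hom := by
  obtain ⟨h2, h3⟩ := abelian_occurs isPrimeField_rat h ha
  have h4 := fun f : W.Form => exists_abelian isPrimeField_rat h ha (EichlerShimura V W f)
  exact ⟨h2, h3, h4, forall_congr' h4, cubG_facts⟩

end Pool.Agent.Results.MP_e1ffa3_nt.PiecesOfOneSequence
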